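import Pool.Agent.Helper57.TW.Goals
import Pool.Agent.Helper42.CR.PS

/-!
# PACKET T74B-PG
-/

set_option autoImplicit false

open Finset Filter Topology

open scoped Classical ArithmeticFunction

namespace Pool.Agent.Helper95.TW

open Pool.Agent.Helper88.CR
open Pool.Agent.Helper42.CR

theorem pg (h1 : StmtSC) (h2 : StmtCH) (h3 : StmtAL) (h4 : StmtPF)
    (h5 : Pool.Agent.Helper57.TW.StmtXP) : Pool.Agent.Helper57.TW.StmtPG := by
  obtain ⟨KS, hKS, hSC⟩ := h1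
  obtain ⟨K, hK, hCH⟩ := h2
  obtain ⟨c, hc, hc1, hXP⟩ := h5
  have hA : 1 ≤ K ^ 2 / c := by
    rw [le_div_iff₀ hc]; nlinarith
  refine ⟨8 * (K ^ 2 / c) * ((1 + K / c) * K) + 4 * KS ^ 2, c, ?_, hc, hc1, ?_⟩
  · have : 0 ≤ 8 * (K ^ 2 / c) * ((1 + K / c) * K) := by positivity
    nlinarith
  intro q0 N hq0
  obtain ⟨z0, hz0'⟩ := hXP q0 N hq0
  refine ⟨max z0 16, ?_⟩
  intro z hz
  have hz0 : z0 ≤ z := le_trans (le_max_left _ _) hz
  have hz16 : 16 ≤ z := le_trans (le_max_right _ _) hz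
  obtain ⟨p, hp, hpN, hpq, hL0⟩ := hz0' z hz0
  refine ⟨p, hp, hpN, hpq, ?_⟩
  intro d hd hpd hP
  have hL := hL0 d hd hpd hP
  have hd1 : 1 ≤ d := Nat.one_le_iff_ne_zero.2 hd.ne_zero
  have hq1 : 1 ≤ q0 * d := Nat.mul_pos hq0 hd1
  clear hL0 hz0' hXP
  generalize q0 * d = q at hP hL hq1 ⊢
  have hq8 : q ^ 8 ≤ z := le_trans (Nat.pow_le_pow_right hq1 (by norm_num)) hP
  have hqz : q ≤ z := le_trans (Nat.le_self_pow (by norm_num) q) hq8
  have : NeZero q := ⟨by omega⟩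
  intro a ha s k hs1 hs2 hs3
  have hl : 1 ≤ Real.log z := by
    have : Real.exp 1 ≤ (z : ℝ) := by
      have h16 : (16 : ℝ) ≤ z := by exact_mod_cast hz16
      have := Real.exp_one_lt_d9
      linarith
    have h6 := Real.log_le_log (Real.exp_pos 1) this
    simpa using h6
  have hs2' : s.re ≤ 2 := by
    have : c / Real.log z ≤ 1 := by
      rw [div_le_one (by linarith)]; linarith
    linarith
  have hz1 : (1 : ℝ) ≤ z := by exact_mod_cast (by omega : 1 ≤ z)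
  have hs3' : |s.im| ≤ (z : ℝ) ^ (1 / 16 : ℝ) :=
    le_trans hs3 (Real.rpow_le_rpow_of_exponent_le hz1 (by norm_num))
  set S : Finset (DirichletCharacter ℂ q) :=
    (univ : Finset (DirichletCharacter ℂ q)).filter (fun χ => χ ≠ 1) with hS
  set F : DirichletCharacter ℂ q → ℕ → ℂ :=
    fun χ j => LL (ch z χ) j s - (if j = 0 then 1 else 0) with hF
  set Pf : DirichletCharacter ℂ q → ℕ → ℂ := fun χ j => PL (ch z χ) j s with hPf
  have hmem : ∀ χ, χ ∈ S ↔ χ ≠ 1 := by intro χ; simp [hS]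
  have hR : 1 ≤ K * Real.log z := by nlinarith
  have hAL := h3 (DirichletCharacter ℂ q) S F Pf K (K * Real.log z) c hK hR hc hc1
    (fun χ hχ j => (hCH z q hz16 hq8 s j hs1 hs2' hs3').1 χ ((hmem χ).1 hχ))
    (fun χ hχ => by
      have := hL χ ((hmem χ).1 hχ) s hs1 hs2 hs3
      simpa [hF] using this)
    (fun j => (hCH z q hz16 hq8 s j hs1 hs2' hs3').2)
    (fun χ _ j => by
      have h6 := h4 z q χ s j hs1
      have e1 : F χ (j + 1) = LL (ch z χ) (j + 1) s := by simp [hF]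
      rw [e1, h6]
      rw [Finset.sum_range_succ, Finset.sum_range_succ]
      have e2 : ∀ i ∈ range j, Pf χ i * F χ (j - i) = PL (ch z χ) i s * LL (ch z χ) (j - i) s := by
        intro i hi
        have : j - i ≠ 0 := by have := Finset.mem_range.1 hi; omega
        simp [hF, hPf, this]
      rw [Finset.sum_congr rfl e2]
      simp only [hF, hPf, Nat.sub_self, if_true]
      ring)
    k
  have hφ : 0 < (Nat.totient q : ℝ) := by exact_mod_cast Nat.totient_pos.2 (by omega)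
  have hφC : ((Nat.totient q : ℝ) : ℂ) ≠ 0 := by exact_mod_cast hφ.ne'
  have hφN : ((Nat.totient q : ℕ) : ℂ) ≠ 0 := by exact_mod_cast hφ.ne'
  -- sums over the nontrivial characters
  have hsplit : ∀ G : DirichletCharacter ℂ q → ℂ,
      ∑ χ, χ ((a : ZMod q)⁻¹) * G χ
        = G 1 + ∑ χ ∈ S, χ ((a : ZMod q)⁻¹) * G χ := by
    intro G
    have e0 : (1 : DirichletCharacter ℂ q) ((a : ZMod q)⁻¹) = 1 := by
      apply MulChar.one_apply
      have hu : IsUnit (a : ZMod q) := (ZMod.isUnit_iff_coprime a q).2 ha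
      obtain ⟨u, hu⟩ := hu
      rw [← hu, ZMod.inv_coe_unit]
      exact Units.isUnit _
    rw [← Finset.add_sum_erase univ _ (Finset.mem_univ (1 : DirichletCharacter ℂ q)), e0, one_mul]
    congr 1
    apply Finset.sum_congr _ (fun _ _ => rfl)
    ext χ
    simp [hS]
  have hch1 : ch z (1 : DirichletCharacter ℂ q) = ci z 1 0 := funext (ch_one z q hqz)
  have hPLo := PL_orth z q a ha k s hs1
  rw [hsplit, hch1] at hPLo
  have hLLo := LL_orth z q a ha (k + 1) s hs1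
  rw [hsplit, hch1, LL_ci_cu z q a (k + 1) (by omega) s,
    LL_ci_cu z 1 0 (k + 1) (by omega) s] at hLLo
  -- the part with F
  have hF1 : ∀ χ, F χ (k + 1) = LL (ch z χ) (k + 1) s := by intro χ; simp [hF]
  have hsc1 := hSC z q a hz16 hq1 hq8 ha s (k + 1) hs1 hs2' hs3'
  have hsc2 := hSC z 1 0 hz16 le_rfl (by simpa using (by omega : 1 ≤ z)) (by simp) s (k + 1)
    hs1 hs2' hs3'
  simp only [Nat.totient_one, Nat.cast_one, div_one] at hsc2
  have hlin : ‖∑ χ ∈ S, χ ((a : ZMod q)⁻¹) * F χ (k + 1)‖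
      ≤ 2 * KS * (KS * Real.log z) ^ (k + 1) := by
    have e1 : ∑ χ ∈ S, χ ((a : ZMod q)⁻¹) * F χ (k + 1)
        = ((Nat.totient q : ℝ) : ℂ) * LL (cu z q a) (k + 1) s - LL (cu z 1 0) (k + 1) s := by
      rw [hLLo]
      simp only [hF1]
      ring
    have e2 : ((Nat.totient q : ℝ) : ℂ) * LL (cu z q a) (k + 1) s - LL (cu z 1 0) (k + 1) s
        = ((Nat.totient q : ℝ) : ℂ) * (LL (cu z q a) (k + 1) s
            - ((Wz z / (Nat.totient q : ℝ) : ℝ) : ℂ) * LL (gz z) (k + 1) s)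
          - (LL (cu z 1 0) (k + 1) s - ((Wz z : ℝ) : ℂ) * LL (gz z) (k + 1) s) := by
      push_cast
      field_simp
      ring
    rw [e1, e2]
    refine le_trans (norm_sub_le _ _) ?_
    rw [norm_mul, Complex.norm_real, Real.norm_of_nonneg hφ.le]
    have e3 : (Nat.totient q : ℝ) * ‖LL (cu z q a) (k + 1) s
            - ((Wz z / (Nat.totient q : ℝ) : ℝ) : ℂ) * LL (gz z) (k + 1) s‖
        ≤ (Nat.totient q : ℝ) * (KS / (Nat.totient q : ℝ) * (KS * Real.log z) ^ (k + 1)) :=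
      mul_le_mul_of_nonneg_left hsc1 hφ.le
    have e4 : (Nat.totient q : ℝ) * (KS / (Nat.totient q : ℝ) * (KS * Real.log z) ^ (k + 1))
        = KS * (KS * Real.log z) ^ (k + 1) := by field_simp
    rw [e4] at e3
    linarith
  have hnorm : ∀ χ : DirichletCharacter ℂ q, ‖χ ((a : ZMod q)⁻¹)‖ ≤ 1 := fun χ =>
    χ.norm_le_one _
  have hdev : ‖∑ χ ∈ S, χ ((a : ZMod q)⁻¹) * (Pf χ k - ((k : ℂ) + 1) * F χ (k + 1))‖
      ≤ ((k : ℝ) + 1) ^ 3 * (K ^ 2 / c) * ((1 + K / c) * (K * Real.log z)) ^ (k + 1) := by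
    refine le_trans (norm_sum_le _ _) (le_trans (Finset.sum_le_sum (fun χ _ => ?_)) hAL)
    rw [norm_mul]
    exact mul_le_of_le_one_left (norm_nonneg _) (hnorm χ)
  have htot : ‖∑ χ ∈ S, χ ((a : ZMod q)⁻¹) * Pf χ k‖
      ≤ ((8 * (K ^ 2 / c) * ((1 + K / c) * K) + 4 * KS ^ 2) * Real.log z) ^ (k + 1) := by
    have e1 : ∑ χ ∈ S, χ ((a : ZMod q)⁻¹) * Pf χ k
        = ∑ χ ∈ S, χ ((a : ZMod q)⁻¹) * (Pf χ k - ((k : ℂ) + 1) * F χ (k + 1))
          + ((k : ℂ) + 1) * ∑ χ ∈ S, χ ((a : ZMod q)⁻¹) * F χ (k + 1) := by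
      rw [Finset.mul_sum, ← Finset.sum_add_distrib]
      exact Finset.sum_congr rfl (fun χ _ => by ring)
    rw [e1]
    refine le_trans (norm_add_le _ _) (le_trans ?_ (num K c KS (Real.log z) k hK hc hc1 hKS hl))
    apply add_le_add hdev
    rw [norm_mul]
    have e2 : ‖((k : ℂ) + 1)‖ = (k : ℝ) + 1 := by
      have : ((k : ℂ) + 1) = (((k : ℝ) + 1 : ℝ) : ℂ) := by push_cast; ring
      rw [this, Complex.norm_real, Real.norm_of_nonneg (by positivity)]
    rw [e2]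
    exact mul_le_mul_of_nonneg_left hlin (by positivity)
  have hfin : PL (ci z q a) k s - ((1 / (Nat.totient q : ℝ) : ℝ) : ℂ) * PL (ci z 1 0) k s
      = ((1 / (Nat.totient q : ℝ) : ℝ) : ℂ) * ∑ χ ∈ S, χ ((a : ZMod q)⁻¹) * Pf χ k := by
    have e1 : PL (ci z q a) k s = ((1 / (Nat.totient q : ℝ) : ℝ) : ℂ) *
        (((Nat.totient q : ℝ) : ℂ) * PL (ci z q a) k s) := by
      push_cast
      field_simp
    rw [e1, hPLo]
    ring
  rw [hfin, norm_mul, Complex.norm_real, Real.norm_of_nonneg (by positivity)]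
  exact mul_le_mul_of_nonneg_left htot (by positivity)

end Pool.Agent.Helper95.TW
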