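import Pool.Agent.Helper83.TW.Goals2

set_option autoImplicit false

namespace Pool.Agent.Helper95.TW

open Pool.Agent.Helper83.TW

theorem orb {η : ℝ} {U γ : ℝ → ℝ} (hη0 : 0 ≤ η) (hη : 10^6 * η ≤ 1)
    (h : ∀ x, 1/16 < U x → U x < 47/16 → |γ x - x - U x| ≤ η ∧ |U (γ x) - U x| ≤ η)
    (z : ℝ) (h1 : 1/8 < U z) (h2 : U z < 23/8) :
    ∀ k : ℕ, k ≤ 32 → |U (γ^[k] z) - U z| ≤ k * η ∧
      |γ^[k] z - z - k * U z| ≤ k * η + (k:ℝ)^2 * η := by
  intro k
  induction k with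
  | zero => intro _; simp
  | succ k ih =>
    intro hk
    obtain ⟨e1, e2⟩ := ih (by omega)
    have hk' : (k : ℝ) ≤ 31 := by
      have : k ≤ 31 := by omega
      exact_mod_cast this
    have hkη : (k : ℝ) * η ≤ 31 * η := mul_le_mul_of_nonneg_right hk' hη0
    have hk0 : (0:ℝ) ≤ k := Nat.cast_nonneg k
    obtain ⟨f1, f1'⟩ := abs_le.mp e1
    obtain ⟨f2, f2'⟩ := abs_le.mp e2
    obtain ⟨g1, g2⟩ := h (γ^[k] z) (by linarith) (by linarith)
    obtain ⟨g1a, g1b⟩ := abs_le.mp g1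
    obtain ⟨g2a, g2b⟩ := abs_le.mp g2
    rw [Function.iterate_succ_apply']
    push_cast
    constructor
    · rw [abs_le]; constructor <;> linarith
    · rw [abs_le]; constructor <;> nlinarith

theorem iter_add_one {γ : ℝ → ℝ} (h : ∀ x, γ (x + 1) = γ x + 1) (k : ℕ) (x : ℝ) :
    γ^[k] (x + 1) = γ^[k] x + 1 := by
  induction k with
  | zero => rfl
  | succ k ih => rw [Function.iterate_succ_apply', Function.iterate_succ_apply', ih, h]

theorem U_sub_int {U : ℝ → ℝ} (h : ∀ x, U (x + 1) = U x) (x : ℝ) (n : ℤ) :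
    U (x - n) = U x := by
  have hp : Function.Periodic U 1 := h
  have := hp.sub_int_mul_eq (x := x) n
  simpa using this

theorem oscG : GOscG := by
  intro η U γ hη0 hη hc hper hmono hγ h x0 h1 h2 x
  by_contra hcon
  push Not at hcon
  -- a point in `[x0, x0 + 1]`
  obtain ⟨t, ht0, ht1, ht⟩ : ∃ t, x0 ≤ t ∧ t ≤ x0 + 1 ∧ 1/16 ≤ |U t - U x0| := by
    refine ⟨x - (⌊x - x0⌋ : ℤ), ?_, ?_, ?_⟩
    · have := Int.floor_le (x - x0); linarith
    · have := Int.lt_floor_add_one (x - x0); linarith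
    · rw [U_sub_int hper]; exact hcon
  have hcf : ContinuousOn (fun s => |U s - U x0|) (Set.Icc x0 t) := by
    apply Continuous.continuousOn; fun_prop
  obtain ⟨s, ⟨hs0, hs1⟩, hs⟩ : ∃ s ∈ Set.Icc x0 t, |U s - U x0| = 1/16 := by
    have := intermediate_value_Icc ht0 hcf
    exact this ⟨by simp, ht⟩
  have e0 := (orb hη0 hη h x0 (by linarith) (by linarith) 32 le_rfl).2
  rw [show ((32:ℕ):ℝ) = 32 from by norm_num] at e0
  obtain ⟨e0a, e0b⟩ := abs_le.mp e0
  rcases (abs_eq (by norm_num : (0:ℝ) ≤ 1/16)).mp hs with hs' | hs'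
  · have e1 := (orb hη0 hη h s (by linarith) (by linarith) 32 le_rfl).2
    rw [show ((32:ℕ):ℝ) = 32 from by norm_num] at e1
    obtain ⟨e1a, e1b⟩ := abs_le.mp e1
    have hm : γ^[32] s ≤ γ^[32] (x0 + 1) := (hmono.iterate 32).monotone (by linarith)
    rw [iter_add_one hγ] at hm
    nlinarith
  · have hU : U (s - 1) = U s := by
      have := hper (s - 1)
      rw [sub_add_cancel] at this
      exact this.symm
    have e1 := (orb hη0 hη h (s - 1) (by rw [hU]; linarith) (by rw [hU]; linarith) 32 le_rfl).2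
    rw [show ((32:ℕ):ℝ) = 32 from by norm_num] at e1
    obtain ⟨e1a, e1b⟩ := abs_le.mp e1
    have hm : γ^[32] x0 ≤ γ^[32] ((s - 1) + 1) := (hmono.iterate 32).monotone (by linarith)
    rw [iter_add_one hγ] at hm
    rw [hU] at e1a e1b
    nlinarith

end Pool.Agent.Helper95.TW
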